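import Mathlib
import Pool.Agent.X24.NM.Neg
import Pool.Agent.TH922.C8_DAT
import Pool.Agent.TH551.C8_XM1
import Pool.Agent.TH755.C8_SEQ

/-!
# Generalized klt pairs with pseudo-effective adjoint class and without log terminal model

There are a projective (hence compact Kähler) normal threefold `X`, a nef `ℝ`-Cartier divisor `β` on
`X` and a prime divisor `S` on `X` such that, for all `0 ≤ ε < 1/3`, the generalized pair
`(X, (2/3 + ε) S + β)` is gklt and `K_X + (2/3 + ε) S + β` is the sum of the nef divisor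
`N = K_X + (2/3) S + β` and of `ε S`, in particular pseudo-effective; but for `ε > 0` this pair has
no log terminal model, not even a weak log canonical model.
-/

set_option autoImplicit false

namespace Pool.Agent.Results.MP_c8c12f_ag.NoLogTerminalModel

open Pool.Agent.H436R3.Fol Pool.Agent.TH202 Pool.Agent.Y181

/-- **Gklt pairs without log terminal model.** -/
theorem result : ∃ (K : Type) (_ : Field K) (_ : Algebra ℂ K) (_ : Algebra.EssFiniteType ℂ K)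
    (T : Foliation K 3) (_ : T.space = ⊤) (X : Model K) (β N S : DVal K → ℝ),
    -- `β` and `N` are nef `ℝ`-Cartier divisors on `X`
    IsNef X β ∧ IsNef X N ∧
    -- `S` is a prime divisor on `X` (and `ℝ`-Cartier)
    IsRCar X S ∧ (∀ v, 0 ≤ S v) ∧
    (∃ z, IsPrimeOn X z ∧ S z = 1 ∧ ∀ w, IsPrimeOn X w → ¬ Same w z → S w = 0) ∧
    -- the pairs `(X, (2/3 + ε) S + β)`, with `K_X + (2/3 + ε) S + β = N + ε S`
    ∀ ε : ℝ, 0 ≤ ε → ε < 1 / 3 →
      IsGklt T X ((2 / 3 + ε) • S) β (N + ε • S) ∧ IsPsef X (N + ε • S) ∧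
      (0 < ε → ∀ (Y : Model K) (E : DVal K → ℝ),
        ¬ IsWeakLCModel T X ((2 / 3 + ε) • S) β (N + ε • S) Y E) := by
  obtain ⟨K, iF, iA, iE, ⟨d⟩⟩ := Pool.Agent.TH922.C8_DAT.exists_dat
  obtain ⟨T, hT, hTs⟩ := Pool.Agent.TH922.C8_DAT.exists_fol d
  have h := Pool.Agent.TH551.C8_XM1.xi_alg d
  obtain ⟨s⟩ := Pool.Agent.TH755.C8_SEQ.exists_sq d
  have hB : ∀ ε : ℝ, ((2 / 3 + ε) • Sb d : DVal K → ℝ) = Bd d ε := fun ε => rfl
  have hD : ∀ ε : ℝ, ((bet s + pr d) + ε • Sb d : DVal K → ℝ) = Dd s ε := by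
    intro ε
    funext v
    rw [Dd_eq]
    simp only [Pi.add_apply, Pi.smul_apply, smul_eq_mul]
    ring
  refine ⟨K, iF, iA, iE, T, hTs, Xd d h, bt s, bet s + pr d, Sb d,
    Pool.Agent.TH246.C8_POS.bt_nef h s, Pool.Agent.X24.NM.nef_N h s,
    Pool.Agent.TH246.C8_POS.rcar_Sb d h, Pool.Agent.TH246.C8_POS.Sb_nonneg d,
    Pool.Agent.X24.NM.prime_S h s T hT, fun ε h0 h1 => ?_⟩
  rw [hB, hD]
  refine ⟨Pool.Agent.X24.NM.gklt h s T hT h0 h1, fun δ hδ => ?_,
    fun hε Y E => Pool.Agent.X24.NM.no_lc h s T hT hε Y E⟩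
  obtain ⟨F, hF, P, hP, h2⟩ := (Pool.Agent.X24.NM.nef_N h s).2 δ hδ
  obtain ⟨Q, hQ, h3⟩ := Pool.Agent.TH246.C8_POS.SFree_eff hF
  refine ⟨Q - P, sub_mem hQ hP, fun w _ => ?_⟩
  have h4 := h2 w
  have h5 := h3 w
  have h6 := mul_nonneg h0 (Pool.Agent.TH246.C8_POS.Sb_nonneg d w)
  rw [← hD]
  simp only [Pi.add_apply, Pi.sub_apply, Pi.smul_apply, smul_eq_mul] at h4 ⊢
  linarith

end Pool.Agent.Results.MP_c8c12f_ag.NoLogTerminalModel
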